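import Pool.Agent.H27.QD

namespace Pool.Agent.Results.MP_c25fd9_nt.Liu
open Finset Polynomial Pool.Agent.H27.QC Pool.Agent.H27.QC.Loc Pool.Agent.H27.QD

/-- the shifted factorial `(a; b)_k` -/
def poch {K : Type*} [Field K] (a b : K) (k : ℕ) : K := ∏ i ∈ range k, (1 - a * b ^ i)

/-- the rising factorial `(x)_k` -/
def rising (x : ℚ) (k : ℕ) : ℚ := ∏ i ∈ range k, (x + i)

/-- `a_k(q)` -/
def a {K : Type*} [Field K] (q : K) (k : ℕ) : K :=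
  poch q (q ^ 2) k ^ 2 * poch (q ^ 2) (q ^ 4) k * q ^ (2 * k)
    / (poch (q ^ 2) (q ^ 2) k ^ 2 * poch (q ^ 4) (q ^ 4) k)

/-- `S_{m,n}(q)` -/
def S {K : Type*} [Field K] (q : K) (m n : ℕ) : K := ∑ k ∈ range (m * n), a q k

/-- `T_m` -/
def T (m : ℕ) : ℚ := ∑ k ∈ range m, rising (1 / 2) k ^ 3 / (k.factorial : ℚ) ^ 3

/-- `C_n(q)` -/
def Cn {K : Type*} [Field K] (q : K) (n : ℕ) : K := (1 - q ^ n) / (1 - q)
  * poch (q ^ 3) (q ^ 4) ((n - 1) / 2) / poch (q ^ 5) (q ^ 4) ((n - 1) / 2)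

/-- congruence modulo `Φ_n(q) ^ 2` -/
def Cong (n : ℕ) (F G : RatFunc ℚ) : Prop := ∃ A B : ℚ[X], IsCoprime B (cyclotomic n ℚ) ∧
  F - G = algebraMap _ _ (cyclotomic n ℚ ^ 2 * A) / algebraMap _ _ B

variable {K : Type*} [Field K]

def st (q w x : K) : K := (w - x) * (1 - q ^ 2 * w * x) * ((1 - q ^ 2 * x ^ 2) * q ^ 2)
  / ((w - q * x) * (1 - q ^ 3 * w * x) * (1 - q ^ 4 * x ^ 2))

def vv (q w : K) (k : ℕ) : K := ∏ i ∈ range k, st q w ((q ^ 2) ^ i)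

theorem vv_shift (q w : K) (hq : q ≠ 0) (h1 : ∀ i, w - q * (q ^ 2) ^ i ≠ 0)
    (h1' : ∀ i, q * w - (q ^ 2) ^ i ≠ 0) (h2 : ∀ i, 1 - q ^ 3 * w * (q ^ 2) ^ i ≠ 0) (k : ℕ) :
    vv q w k * ((q ^ 2 * w - 1) * (1 - q ^ 2 * w * (q ^ 2) ^ k) * (q * w - (q ^ 2) ^ k)
      * (1 - q ^ 3 * w)) = vv q (q ^ 2 * w) k * ((q ^ 2 * w - (q ^ 2) ^ k) * (1 - q ^ 2 * w)
        * (q * w - 1) * (1 - q ^ 3 * w * (q ^ 2) ^ k)) := by
  induction k with
  | zero => simp only [vv, range_zero, prod_empty]; ring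
  | succ k ih =>
    have a1 := mul_inv_cancel₀ (h1 k)
    have a2 := h1' k
    have a3 := mul_inv_cancel₀ (h2 k)
    have a4 := mul_inv_cancel₀ (h2 (k + 1))
    have a5 := mul_inv_cancel₀ a2
    have a6 := mul_inv_cancel₀ hq
    rw [vv, vv, prod_range_succ, prod_range_succ, ← vv, ← vv]
    rw [pow_succ' (q ^ 2) k] at a4 ⊢
    generalize (q ^ 2) ^ k = x at *
    apply mul_left_cancel₀ a2
    rw [st, st, show q ^ 2 * w - q * x = q * (q * w - x) by ring,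
      show q ^ 3 * (q ^ 2 * w) * x = q ^ 3 * w * (q ^ 2 * x) by ring]
    simp only [div_eq_mul_inv, mul_inv]
    generalize (w - q * x)⁻¹ = B at *
    generalize (1 - q ^ 3 * w * x)⁻¹ = C at *
    generalize (1 - q ^ 3 * w * (q ^ 2 * x))⁻¹ = D at *
    generalize (q * w - x)⁻¹ = F at *
    generalize q⁻¹ = G at *
    set A := (1 - q ^ 2 * x ^ 2) * q ^ 2 * (1 - q ^ 4 * x ^ 2)⁻¹ * (w - x) * (1 - q ^ 4 * w * x) * q
    set V := vv q (q ^ 2 * w) k * ((q ^ 2 * w - x) * (1 - q ^ 2 * w) * (q * w - 1))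
    linear_combination (A * (w - q * x) * B * C) * ih + A * V * (1 - q ^ 3 * w * x) * C * a1
      + A * V * a3 - A * V * ((q * w - x) * F * (q * G)) * a4 - A * V * (q * G) * a5 - A * V * a6

theorem whipple (q : K) (hq : q ≠ 0) (ne : ∀ j, 1 - q ^ (j + 1) ≠ 0)
    (inj : ∀ i j, q ^ i = q ^ j → i = j) (N : ℕ) :
    ∑ k ∈ range (N + 1), vv q ((q ^ 2) ^ N) k = Cn q (2 * N + 1) := by
  have ne' : ∀ (j : ℕ) (x : K), x = q ^ (j + 1) → 1 - x ≠ 0 := fun j x e => e ▸ ne j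
  have top : ∀ N, vv q ((q ^ 2) ^ N) (N + 1) = 0 := fun N => by
    rw [vv, prod_range_succ, st]; simp
  induction N with
  | zero => simp [vv, Cn, poch, div_self (ne' 0 q (by simp))]
  | succ N ih =>
    have e1 : ∑ k ∈ range (N + 1), vv q ((q ^ 2) ^ N) k
        = ∑ k ∈ range (N + 2), vv q ((q ^ 2) ^ N) k := by
      rw [sum_range_succ _ (N + 1), top, add_zero]
    have e2 : Cn q (2 * (N + 1) + 1) = Cn q (2 * N + 1)
        * ((1 - q ^ 3 * (q ^ 2) ^ N) * (1 - q ^ 3 * ((q ^ 2) ^ N) ^ 2)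
          / ((1 - q * (q ^ 2) ^ N) * (1 - q ^ 5 * ((q ^ 2) ^ N) ^ 2))) := by
      have := ne' (2 * N) (q * (q ^ 2) ^ N) (by ring)
      rw [Cn, Cn, show (2 * (N + 1) + 1 - 1) / 2 = N + 1 by omega,
        show (2 * N + 1 - 1) / 2 = N by omega, poch, poch, prod_range_succ, prod_range_succ, ← poch,
        ← poch, show q ^ (2 * N + 1) = q * (q ^ 2) ^ N by ring]
      simp only [div_eq_mul_inv, mul_inv]
      linear_combination (-((1 - q)⁻¹ * poch (q ^ 3) (q ^ 4) N * (poch (q ^ 5) (q ^ 4) N)⁻¹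
        * (1 - q ^ 3 * (q ^ 2) ^ N) * (1 - q ^ 3 * ((q ^ 2) ^ N) ^ 2)
        * (1 - q ^ 5 * ((q ^ 2) ^ N) ^ 2)⁻¹)) * mul_inv_cancel₀ this
    rw [e2, ← ih, e1, sum_mul, ← sub_eq_zero, ← sum_sub_distrib]
    let g : ℕ → K := fun k => -(vv q ((q ^ 2) ^ (N + 1)) k * (q ^ 2 * (q ^ 2) ^ N
      * (1 - ((q ^ 2) ^ k) ^ 2) * (1 - q ^ 3 * (q ^ 2) ^ N * (q ^ 2) ^ k)
        / ((1 - q ^ 5 * ((q ^ 2) ^ N) ^ 2) * (1 - q ^ 2 * (q ^ 2) ^ N * (q ^ 2) ^ k) * (q ^ 2) ^ k)))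
    have : ∑ k ∈ range (N + 2), (g (k + 1) - g k) = 0 := by
      rw [sum_range_sub]; simp [g, top]
    rw [← this]
    refine sum_congr rfl fun k _ => ?_
    have h1 : ∀ i, (q ^ 2) ^ N - q * (q ^ 2) ^ i ≠ 0 := fun i h => by
      have := inj (2 * N) (2 * i + 1) (by linear_combination h); omega
    have h1' : ∀ i, q * (q ^ 2) ^ N - (q ^ 2) ^ i ≠ 0 := fun i h => by
      have := inj (2 * N + 1) (2 * i) (by linear_combination h); omega
    have h2 : ∀ i, 1 - q ^ 3 * (q ^ 2) ^ N * (q ^ 2) ^ i ≠ 0 :=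
      fun i => ne' (2 * N + 2 * i + 2) _ (by ring)
    have hs := vv_shift q _ hq h1 h1' h2 k
    have b1 : q ^ 2 * (q ^ 2) ^ N - 1 ≠ 0 := fun h =>
      ne' (2 * N + 1) (q ^ 2 * (q ^ 2) ^ N) (by ring) (by linear_combination -h)
    have b2 := ne' (2 * N + 2 * k + 1) (q ^ 2 * (q ^ 2) ^ N * (q ^ 2) ^ k) (by ring)
    have b3 := ne' (2 * N + 2) (q ^ 3 * (q ^ 2) ^ N) (by ring)
    have b4 := h1' k
    have b5 := ne' (2 * N) (q * (q ^ 2) ^ N) (by ring)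
    have b6 := ne' (4 * N + 4) (q ^ 5 * ((q ^ 2) ^ N) ^ 2) (by ring)
    have b7 := ne' (4 * k + 3) ((q ^ 2 * (q ^ 2) ^ k) ^ 2) (by ring)
    have b8 := ne' (2 * N + 2 * k + 4) (q ^ 3 * (q ^ 2) ^ N * (q ^ 2 * (q ^ 2) ^ k)) (by ring)
    have b9 := ne' (2 * N + 2 * k + 3) (q ^ 2 * (q ^ 2) ^ N * (q ^ 2 * (q ^ 2) ^ k)) (by ring)
    have b0 : (q ^ 2) ^ k ≠ 0 := by positivity
    rw [← eq_div_iff (mul_ne_zero (mul_ne_zero (mul_ne_zero b1 b2) b4) b3)] at hs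
    simp only [g]
    rw [hs, show ∀ w, vv q w (k + 1) = vv q w k * st q w ((q ^ 2) ^ k) from
      fun _ => prod_range_succ _ _, pow_succ' (q ^ 2) N, pow_succ' (q ^ 2) k]
    generalize vv q (q ^ 2 * (q ^ 2) ^ N) k = u
    generalize (q ^ 2) ^ N = w at *
    generalize (q ^ 2) ^ k = x at *
    have c1 : u * ((q ^ 2 * w - x) * (1 - q ^ 2 * w) * (q * w - 1) * (1 - q ^ 3 * w * x)) /
        ((q ^ 2 * w - 1) * (1 - q ^ 2 * w * x) * (q * w - x) * (1 - q ^ 3 * w)) *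
        ((1 - q ^ 3 * w) * (1 - q ^ 3 * w ^ 2) / ((1 - q * w) * (1 - q ^ 5 * w ^ 2)))
        = u * ((q ^ 2 * w - x) * (1 - q ^ 3 * w * x) * (1 - q ^ 3 * w ^ 2)) /
          ((1 - q ^ 2 * w * x) * (q * w - x) * (1 - q ^ 5 * w ^ 2)) := by
      rw [div_mul_div_comm, div_eq_div_iff (by simp [b1, b2, b3, b4, b5, b6]) (by simp [b2, b4, b6])]
      ring
    have c2 : st q (q ^ 2 * w) x * (q ^ 2 * w * (1 - (q ^ 2 * x) ^ 2) * (1 - q ^ 3 * w * (q ^ 2 * x))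
        / ((1 - q ^ 5 * w ^ 2) * (1 - q ^ 2 * w * (q ^ 2 * x)) * (q ^ 2 * x)))
        = (q ^ 2 * w - x) * (1 - q ^ 2 * x ^ 2) * (q * w)
          / ((q * w - x) * (1 - q ^ 5 * w ^ 2) * x) := by
      rw [st, show q ^ 2 * w - q * x = q * (q * w - x) by ring,
        show q ^ 3 * (q ^ 2 * w) * x = q ^ 3 * w * (q ^ 2 * x) by ring,
        show q ^ 4 * x ^ 2 = (q ^ 2 * x) ^ 2 by ring, div_mul_div_comm,
        div_eq_div_iff (by simp [hq, b0, b4, b6, b7, b8, b9]) (by simp [b0, b4, b6])]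
      ring
    rw [c1, mul_assoc u (st _ _ _), c2]
    have i1 := mul_inv_cancel₀ b2
    have i2 := mul_inv_cancel₀ b4
    have i3 := mul_inv_cancel₀ b6
    have i4 := mul_inv_cancel₀ b0
    apply mul_left_cancel₀ (mul_ne_zero (mul_ne_zero (mul_ne_zero b2 b4) b6) b0)
    simp only [div_eq_mul_inv, mul_inv]
    linear_combination
      (-u * (q ^ 2 * w - x) * (1 - q ^ 3 * w * x) * (1 - q ^ 3 * w ^ 2) * x) * (((q * w - x)
        * (q * w - x)⁻¹ * ((1 - q ^ 5 * w ^ 2) * (1 - q ^ 5 * w ^ 2)⁻¹)) * i1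
          + ((1 - q ^ 5 * w ^ 2) * (1 - q ^ 5 * w ^ 2)⁻¹) * i2 + i3)
      + (u * (q ^ 2 * w - x) * (1 - q ^ 2 * x ^ 2) * (q * w) * (1 - q ^ 2 * w * x))
        * ((x * x⁻¹ * ((1 - q ^ 5 * w ^ 2) * (1 - q ^ 5 * w ^ 2)⁻¹)) * i2 + x * x⁻¹ * i3 + i4)
      - (u * (q ^ 2 * w) * (1 - x ^ 2) * (1 - q ^ 3 * w * x) * (q * w - x))
        * ((x * x⁻¹ * ((1 - q ^ 5 * w ^ 2) * (1 - q ^ 5 * w ^ 2)⁻¹)) * i1 + x * x⁻¹ * i3 + i4)

def tt (q : K) (b : ℕ) (y : K) : K := q ^ (2 * b) * rho (q ^ 1) b y ^ 2 * rho (q ^ 2) b (y ^ 2)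

theorem a_eq (q : K) (k : ℕ) : a q k = tt q k 1 := by
  have e1 : rho (q ^ 1) k 1 = poch q (q ^ 2) k / poch (q ^ 2) (q ^ 2) k := by
    rw [rho, prod_div_distrib, poch, poch]
    congr 1 <;> exact prod_congr rfl fun i _ => by ring
  have e2 : rho (q ^ 2) k (1 ^ 2) = poch (q ^ 2) (q ^ 4) k / poch (q ^ 4) (q ^ 4) k := by
    rw [rho, prod_div_distrib, poch, poch]
    congr 1 <;> exact prod_congr rfl fun i _ => by ring
  rw [a, tt, e1, e2, div_pow, mul_assoc (q ^ _), div_mul_div_comm]; ring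

variable [CharZero K] {L : Loc K}

theorem TG_sq {f : K → K} (hf : L.TG f) : L.TG fun y => f (y ^ 2) := by
  obtain ⟨h1, D, hD, h⟩ := hf
  refine ⟨by simpa using h1, 2 * D, mul_mem (L.nat_mem 2) hD, fun y c hc hy => ?_⟩
  have := Nr.pow ⟨hc, hy⟩ 2
  exact (h _ _ this.1 this.2).of_sub (by push_cast; ring)

variable {h : ℕ} (hn : L.n = 2 * h + 1)
include hn

theorem hs1 : ∀ j, L.n ∣ 1 * j → L.n ∣ j := fun j h => by simpa using h

theorem hs2 : ∀ j, L.n ∣ 2 * j → L.n ∣ j := fun j hj =>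
  (show Nat.Coprime L.n 2 by rw [hn]; simp).dvd_of_dvd_mul_left hj

theorem tt_TG {b : ℕ} (hb : b < L.n) : L.TG (tt L.q b) :=
  ((TG.const (L.qp _)).mul ((rho_TG hn (hs1 hn) hb).pow 2)).mul (TG_sq (rho_TG hn (hs2 hn) hb))

theorem closed : ∑ b ∈ range (h + 1), L.q ^ (2 * b) * rho (L.q ^ 2) b (1 ^ 2)
    * (rho (L.q ^ 1) b ((L.q ^ L.n) ^ 1) * rho (L.q ^ 1) b ((L.q ^ L.n) ^ 1)⁻¹) = Cn L.q L.n := by
  have q0 := L.q0
  have hQ : (L.q ^ L.n) ^ 1 = L.q * (L.q ^ 2) ^ h := by rw [hn]; ring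
  have := whipple L.q q0 (fun j => L.ne _ (by omega)) (fun _ _ => q_inj) h
  rw [← hn] at this
  rw [← this]
  refine sum_congr rfl fun b _ => ?_
  rw [pow_mul, ← card_range b, ← prod_const, card_range, rho, rho, rho, ← prod_mul_distrib,
    ← prod_mul_distrib, ← prod_mul_distrib, vv]
  refine prod_congr rfl fun i _ => ?_
  have hw : (L.q ^ 2) ^ h ≠ 0 := by positivity
  rw [st, ← mul_div_assoc, div_mul_div_comm, div_mul_div_comm, hQ,
    ← mul_div_mul_right _ _ hw]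
  refine congrArg₂ (fun x y : K => x / y) ?_ ?_ <;> field_simp <;> ring

theorem G_refl {y c : K} (hy : Nr L y c) : ∑ b ∈ range (h + 1), tt L.q b y
    = tt L.q h y * ∑ b ∈ range (h + 1), tt L.q b (y * (L.q ^ L.n) ^ 1)⁻¹ := by
  have q0 := L.q0
  have y0 := hy.U.2.2
  rw [← sum_range_reflect, mul_sum]
  refine sum_congr rfl fun b hb => ?_
  obtain ⟨d, hd⟩ : ∃ d, d + b = h := ⟨h - b, by have := mem_range.mp hb; omega⟩
  rw [show h + 1 - 1 - b = d by omega, tt, tt, tt,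
    rho_reflect hn (hs1 hn) hd (z := (y * (L.q ^ L.n) ^ 1)⁻¹) hy (by field_simp),
    rho_reflect hn (hs2 hn) hd (z := (y * (L.q ^ L.n) ^ 1)⁻¹ ^ 2) (hy.pow 2) (by field_simp),
    show L.q ^ (2 * h) = L.q ^ (2 * d) * L.q ^ (2 * b) by rw [← hd]; ring]
  ring

theorem main (he : Even h) (m : ℕ) : L.E 2 (S L.q m L.n) (Cn L.q L.n * (T m : K)) := by
  have hR := rho_U hn (hs1 hn) le_rfl (Nr.one (L := L))
  have hR' := rho_U hn (hs2 hn) le_rfl (Nr.one (L := L))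
  obtain ⟨l, hl0, hl⟩ := TG_nr (rho_TG hn (hs1 hn) (b := h) (by omega)) hR
  obtain ⟨l', hl0', hl'⟩ := TG_nr (rho_TG hn (hs2 hn) (b := h) (by omega)) hR'
  have hG : L.TG fun y => ∑ b ∈ range (h + 1), tt L.q b y :=
    TG.sum _ fun b hb => tt_TG hn (by have := mem_range.mp hb; omega)
  obtain ⟨μ, hμ⟩ : ∃ μ, Nr L (L.q ^ (2 * h) * rho (L.q ^ 1) h 1 ^ 2 * rho (L.q ^ 2) h 1) μ := by
    apply Nr.of_E
    have a0 := rho_half hn (hs1 hn)
    have a1 := rho_half hn (hs2 hn)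
    have a2 := (Nr.qn (L := L) (2 * h)).inv.near
    rw [he.neg_one_pow] at a0 a1
    refine (((a0.pow (one_mem _) 2).mul a1 (pow_mem (one_mem _) 2) (one_mem _)).mul a2
      (mul_mem (pow_mem (one_mem _) 2) (one_mem _)) (one_mem _)).of_sub ?_
    have q0 := L.q0
    rw [hn]
    field_simp
    ring
  have key := fun y c (hy : Nr L y c) => reflect_plus (μ := μ) (l := 2 * l + 2 * l')
    (κ := tt L.q h) hG (Nr.qn 1)
    (fun y c hy => ((hμ.mul ((hl y c hy).pow 2)).mul (hl' _ _ (hy.pow 2))).congr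
      (by
        have := hR.2.2; have := hR'.2.2; unfold tt
        generalize rho (L.q ^ 1) h = f at *
        field_simp) (by push_cast; ring))
    (fun y c hy => G_refl hn hy) hy
  have k0 : L.E 2 (∑ b ∈ range (h + 1), tt L.q b 1) (Cn L.q L.n) := by
    refine E.trans (E.sum _ fun b hb => ?_) (E.of_eq (closed hn))
    have hb' : b < L.n := by have := mem_range.mp hb; omega
    refine ((rho_pair hn (hs1 hn) hb' (Nr.qn 1)).symm.smul (z := L.q ^ (2 * b)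
      * rho (L.q ^ 2) b (1 ^ 2)) (mul_mem (L.qp _) (TG_sq (rho_TG hn (hs2 hn) hb')).1)).of_sub ?_
    unfold tt; ring
  rw [S, T, sum_blocks]
  push_cast
  rw [mul_sum]
  refine E.sum _ fun r _ => ?_
  have hY := Nr.qn (L := L) (2 * r)
  have hw : L.U (ww r : K) := U.rat (by unfold ww asc; positivity)
  have k1 := (((rho_blocks hn (hs1 hn) one_ne_zero hl r).pow 2).mul
    (rho_blocks hn (hs2 hn) two_ne_zero hl' r)).mul (Nr.qn (2 * r))
  have k2 := key _ _ hY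
  have k3 : L.E 2 (∑ b ∈ range L.n, tt L.q b ((L.q ^ L.n) ^ (2 * r)))
      (∑ b ∈ range (h + 1), tt L.q b ((L.q ^ L.n) ^ (2 * r))) := by
    rw [show L.n = h + 1 + h by omega, sum_range_add, ← show L.n = h + 1 + h by omega]
    refine (E.sum (range h) (f := fun b => tt L.q (h + 1 + b) ((L.q ^ L.n) ^ (2 * r)))
      (g := fun _ => 0) fun b hb => ?_).of_sub (by simp)
    have hb' : h + 1 + b < L.n := by have := mem_range.mp hb; omega
    have z := rho_zero hn (hs1 hn) hb' (by omega) hY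
    refine ((z.mul_zero z).smul (mul_mem (L.qp (2 * (h + 1 + b)))
      (rho_mem hn (hs2 hn) hb' (hY.pow 2)))).of_sub ?_
    unfold tt; ring
  have hc : ((2 * r : ℕ) : K) * (2 * l + 2 * l') / 2 ∈ L.O :=
    div_mem' (mul_mem (L.nat_mem _) (add_mem (mul_mem (L.nat_mem 2) hl0)
      (mul_mem (L.nat_mem 2) hl0'))) (by simpa using U.nat (L := L) (a := 2) (by norm_num))
  have k4 := (k1.mul ⟨hc, E.refl _⟩).2
  have k5 := (((k3.trans k2).smul k1.U.1).add (k4.smul hG.1)).add k0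
  refine (k5.smul (pow_mem hw.1 3)).of_sub ?_
  have e3 : ∀ b, a L.q (r * L.n + b) = rho (L.q ^ 1) (r * L.n) 1 ^ 2 * rho (L.q ^ 2) (r * L.n) 1
      * (L.q ^ L.n) ^ (2 * r) * tt L.q b ((L.q ^ L.n) ^ (2 * r)) := by
    intro b
    rw [a_eq, tt, tt, rho_add, rho_add, one_pow,
      show 1 * (L.q ^ 1) ^ (2 * (r * L.n)) = (L.q ^ L.n) ^ (2 * r) by ring,
      show 1 * (L.q ^ 2) ^ (2 * (r * L.n)) = ((L.q ^ L.n) ^ (2 * r)) ^ 2 by ring]
    ring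
  have e4 : (rising (1 / 2) r : K) ^ 3 / (r.factorial : K) ^ 3 = (ww r : K) ^ 3 := by
    rw [← div_pow, ww]; push_cast; rfl
  simp only [e3]
  rw [← mul_sum, e4]
  have := hw.2.2
  push_cast
  field_simp
  ring

omit hn in
theorem result (m n : ℕ) (_hm : 1 ≤ m) (h1 : 1 < n) (h4 : n % 4 = 1) :
    Cong n (S RatFunc.X m n) (Cn RatFunc.X n * (T m : RatFunc ℚ)) :=
  cyc_out (by omega) (main (L := cycL n (by omega)) (h := n / 2)
    (show n = _ by omega) (Nat.even_iff.mpr (by omega)) m)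

end Pool.Agent.Results.MP_c25fd9_nt.Liu
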